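import Pool.Agent.V5helper84.SL.Stm
import Pool.Agent.W539.Ker.Ops
import Pool.Agent.W539.Ker.Lef

/-!
# RANK: the numerical rank is the number of squares
-/

open CategoryTheory AlgebraicGeometry Finset

set_option autoImplicit false

universe u v

namespace Pool.Agent.V5helper37.SL

open Pool.Agent.H914 Pool.Agent.H914.VarClass Pool.Agent.H914.VarClass.Obj
  Pool.Agent.H914.WeilCohomology Pool.Agent.H281R3.HT Pool.Agent.W539.Ker Pool.Agent.W534
  Pool.Agent.W552 Pool.Agent.V5helper84.SL

section Abs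

variable {M : Type*} [AddCommGroup M] [Module ℚ M] {B : M →ₗ[ℚ] M →ₗ[ℚ] ℚ}

/-- The expansion of the form in a maximal orthogonal family. -/
lemma OM_expand (hB : ∀ x y, B x y = B y x) {ι : Type*} [Fintype ι] {x : ι → M} (h : OM B x)
    (u v : M) : B u v = ∑ i, (B u (x i) / B (x i) (x i)) * B (x i) v := by
  classical
  have hp : ∀ u : M, ∃ p : M, (∀ i, B (u - p) (x i) = 0) ∧
      ∀ v, B p v = ∑ i, (B u (x i) / B (x i) (x i)) * B (x i) v := by
    intro u
    refine ⟨∑ i, (B u (x i) / B (x i) (x i)) • x i, ?_, ?_⟩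
    · intro i
      rw [map_sub, LinearMap.sub_apply, map_sum B, LinearMap.sum_apply, Finset.sum_eq_single i]
      · rw [map_smul, LinearMap.smul_apply, smul_eq_mul, div_mul_cancel₀ _ (h.ne i), sub_self]
      · intro j _ hj
        rw [map_smul, LinearMap.smul_apply, h.orth j i hj, smul_zero]
      · intro h0; exact absurd (Finset.mem_univ _) h0
    · intro v
      rw [map_sum B, LinearMap.sum_apply]
      apply Finset.sum_congr rfl
      intro i _
      rw [map_smul, LinearMap.smul_apply, smul_eq_mul]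
  obtain ⟨p, hp1, hp2⟩ := hp u
  obtain ⟨q, hq1, hq2⟩ := hp v
  have h1 := h.max (u - p) hp1
  have h2 := h.max (v - q) hq1
  have h3 := h.max ((u - p) + (v - q))
    (fun i => by rw [map_add, LinearMap.add_apply, hp1, hq1, add_zero])
  have h3' : B (u - p) (u - p) + B (u - p) (v - q) + (B (v - q) (u - p) + B (v - q) (v - q)) = 0 := by
    rw [← h3, map_add B, LinearMap.add_apply, map_add (B (u - p)), map_add (B (v - q))]
  rw [h1, h2, hB (v - q) (u - p)] at h3'
  have h4 : B (u - p) (v - q) = 0 := by linarith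
  have h5 : B (u - p) q = 0 := by
    rw [hB, hq2]
    apply Finset.sum_eq_zero
    intro i _
    rw [hB (x i) (u - p), hp1, mul_zero]
  have h6 : B (u - p) v = 0 := by
    have h7 : B (u - p) v = B (u - p) (v - q) + B (u - p) q := by
      rw [← map_add, sub_add_cancel]
    rw [h7, h4, h5, add_zero]
  rw [map_sub, LinearMap.sub_apply, sub_eq_zero] at h6
  rw [h6, hp2]

end Abs

variable {k : Type u} [Field k] {𝒱 : VarClass k} {ops : CycleOps 𝒱}
  {W : WeilCohomology.{u, v} ops} {X : 𝒱.Obj} {D : X.Cycles} {f : Module.End W.K (W.H X)}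

/-- The total number of squares. -/
lemma posSq_add_negSq (hD : X.IsCyc 1 D) {n : ℕ} (hn : 2 * n ≤ X.dim) {m : ℕ}
    {x : Fin m → PM W X D n} (h : OM (BP W hD n hn) x) : posSq W X D n + negSq W X D n = m := by
  classical
  have h1 : posSq W X D n =
      (univ.filter (fun i => 0 < BP W hD n hn (x i) (x i))).card := by
    rw [← h.posIdx_eq (BP_symm hD hn), posSq, posIdx]
    congr 1
    ext r
    exact hasFamily_one hD hn r
  have h2 : negSq W X D n = (univ.filter (fun i => BP W hD n hn (x i) (x i) < 0)).card := by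
    have h3 := h.neg.posIdx_eq (B := -BP W hD n hn) (fun x y => by
      rw [LinearMap.neg_apply, LinearMap.neg_apply, LinearMap.neg_apply, LinearMap.neg_apply,
        BP_symm])
    have h4 : negSq W X D n = posIdx (fun x y => (-BP W hD n hn) x y) := by
      rw [negSq, posIdx]
      congr 1
      ext r
      exact hasFamily_neg hD hn r
    rw [h4, h3]
    congr 1
    ext i
    rw [Finset.mem_filter, Finset.mem_filter, LinearMap.neg_apply, LinearMap.neg_apply, neg_pos]
  rw [h1, h2, Finset.card_filter, Finset.card_filter, ← Finset.sum_add_distrib]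
  have h3 : ∀ i : Fin m, ((if 0 < BP W hD n hn (x i) (x i) then 1 else 0) +
      if BP W hD n hn (x i) (x i) < 0 then 1 else 0) = 1 := by
    intro i
    rcases lt_trichotomy (BP W hD n hn (x i) (x i)) 0 with h0 | h0 | h0
    · rw [if_neg (not_lt.2 h0.le), if_pos h0]
    · exact absurd h0 (h.ne i)
    · rw [if_pos h0, if_neg (not_lt.2 h0.le)]
  rw [Finset.sum_congr rfl fun i _ => h3 i, Finset.sum_const, Finset.card_univ, Fintype.card_fin,
    smul_eq_mul, mul_one]

lemma tr_cross (hD : X.IsCyc 1 D) {n n' : ℕ} (hn : 2 * n ≤ X.dim) (hn' : 2 * n' ≤ X.dim)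
    (hnn : n ≠ n') {z z' : X.Cycles} (hz : Primitive W X D n z) (hz' : Primitive W X D n' z')
    {j j' : ℕ} (hjj : n + j + (n' + j') = X.dim) :
    W.tr X (((LinearMap.mulLeft W.K (W.cl X D)) ^ j) (W.cl X z) *
      ((LinearMap.mulLeft W.K (W.cl X D)) ^ j') (W.cl X z')) = 0 := by
  have h1 : ((LinearMap.mulLeft W.K (W.cl X D)) ^ (X.dim - 2 * n + 1)) (W.cl X z) = 0 := by
    rw [← cl_divPow]; exact hz.2
  have h2 : ((LinearMap.mulLeft W.K (W.cl X D)) ^ (X.dim - 2 * n' + 1)) (W.cl X z') = 0 := by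
    rw [← cl_divPow]; exact hz'.2
  rcases lt_or_gt_of_ne hnn with h | h
  · rw [L_pow_self hD, ← Module.End.mul_apply, ← pow_add,
      L_pow_gt (n := X.dim) (i := 2 * n') h2 (by omega), mul_zero, map_zero]
  · rw [← L_pow_self hD, ← Module.End.mul_apply, ← pow_add,
      L_pow_gt (n := X.dim) (i := 2 * n) h1 (by omega), zero_mul, map_zero]

lemma tr_same (hD : X.IsCyc 1 D) {n : ℕ} (hn : 2 * n ≤ X.dim)
    {z z' : X.Cycles} (hz : Primitive W X D n z) (hz' : Primitive W X D n z')
    {j j' : ℕ} (hjj : n + j + (n + j') = X.dim) :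
    W.tr X (((LinearMap.mulLeft W.K (W.cl X D)) ^ j) (W.cl X z) *
      ((LinearMap.mulLeft W.K (W.cl X D)) ^ j') (W.cl X z')) =
      (((-1) ^ n * pairing ops X D n z z' : ℚ) : W.K) := by
  rw [L_pow_self hD, ← Module.End.mul_apply, ← pow_add, show j + j' = X.dim - 2 * n by omega,
    Rat.cast_mul, pairing_cast hD hn hz.1 hz'.1, ← mul_assoc]
  have h1 : (((-1 : ℚ) ^ n : ℚ) : W.K) * (-1) ^ n = 1 := by
    push_cast
    rw [← mul_pow]
    simp
  rw [h1, one_mul]

lemma decomp_cyc (F : Fr W X D f) {c : ℕ} (hc : 2 * c ≤ X.dim) {z : X.Cycles}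
    (hz : X.IsCyc c z) :
    ∃ v : ℕ → X.Cycles, (∀ i ≤ c, Primitive W X D i (v i)) ∧
      W.cl X z = ∑ i ∈ range (c + 1),
        ((LinearMap.mulLeft W.K (W.cl X D)) ^ (c - i)) (W.cl X (v i)) := by
  obtain ⟨w, hu, hs⟩ := (ap_alg F).decomp_low (mulLeft_isHom F.hD) W_hbd c hc _ ⟨z, hz, rfl⟩
  have h1 : ∀ i, ∃ y : X.Cycles, i ≤ c → Primitive W X D i y ∧ W.cl X y = w (c - i) := by
    intro i
    by_cases hi : i ≤ c
    · obtain ⟨⟨y, hy, hy'⟩, h2⟩ := hu (c - i) (by omega)
      rw [show c - (c - i) = i by omega] at hy h2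
      refine ⟨y, fun _ => ⟨⟨hy, ?_⟩, hy'⟩⟩
      rw [cl_divPow, hy']
      exact h2
    · exact ⟨0, fun h => absurd h hi⟩
  choose v hv using h1
  refine ⟨v, fun i hi => (hv i hi).1, ?_⟩
  rw [hs, ← Finset.sum_range_reflect
    (fun b => ((LinearMap.mulLeft W.K (W.cl X D)) ^ b) (w b)) (c + 1)]
  apply Finset.sum_congr rfl
  intro i hi
  rw [Finset.mem_range] at hi
  rw [(hv i (by omega)).2, Nat.add_sub_cancel]

lemma decomp_high (F : Fr W X D f) {c : ℕ} (hc : 2 * c ≤ X.dim) {w : X.Cycles}
    (hw : X.IsCyc (X.dim - c) w) :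
    ∃ v : ℕ → X.Cycles, (∀ i ≤ c, Primitive W X D i (v i)) ∧
      W.cl X w = ∑ i ∈ range (c + 1),
        ((LinearMap.mulLeft W.K (W.cl X D)) ^ (X.dim - c - i)) (W.cl X (v i)) := by
  obtain ⟨_, ⟨z, hz, rfl⟩, hzw⟩ := (ap_alg F).hl c hc _ ⟨w, hw, rfl⟩
  obtain ⟨v, hv, hs⟩ := decomp_cyc F hc hz
  refine ⟨v, hv, ?_⟩
  rw [← hzw, hs, map_sum]
  apply Finset.sum_congr rfl
  intro i hi
  rw [Finset.mem_range] at hi
  rw [← Module.End.mul_apply, ← pow_add, show X.dim - 2 * c + (c - i) = X.dim - c - i by omega]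

lemma tr_one (hD : X.IsCyc 1 D) {c i : ℕ} (hc : 2 * c ≤ X.dim) (hi : i ≤ c) {x : X.Cycles}
    (hx : Primitive W X D i x) {w : ℕ → X.Cycles} (hw : ∀ i ≤ c, Primitive W X D i (w i)) :
    W.tr X (((LinearMap.mulLeft W.K (W.cl X D)) ^ (c - i)) (W.cl X x) *
      ∑ j ∈ range (c + 1), ((LinearMap.mulLeft W.K (W.cl X D)) ^ (X.dim - c - j)) (W.cl X (w j))) =
      (((-1) ^ i * pairing ops X D i x (w i) : ℚ) : W.K) := by
  rw [Finset.mul_sum, map_sum, Finset.sum_eq_single i]
  · exact tr_same hD (by omega) hx (hw i hi) (by omega)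
  · intro j hj hji
    rw [Finset.mem_range] at hj
    exact tr_cross hD (by omega) (by omega) (Ne.symm hji) hx (hw j (by omega)) (by omega)
  · intro h
    exact absurd (Finset.mem_range.2 (by omega)) h

lemma inter_cast {c : ℕ} (hc : 2 * c ≤ X.dim) (a : {z : X.Cycles // X.IsCyc c z})
    (b : {w : X.Cycles // X.IsCyc (X.dim - c) w}) :
    ((interNumbers ops X c a b : ℚ) : W.K) = W.tr X (W.cl X a.1 * W.cl X b.1) := by
  have h1 := ops.mul_mem a.2 b.2
  rw [show c + (X.dim - c) = X.dim by omega] at h1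
  rw [interNumbers, ← W.tr_cl h1, W.cl_mul]

/-- **RANK.** -/
theorem t_RANK : S_RANK.{u, v} := by
  intro k _ 𝒱 ops W X D hD hHL hB c hc
  classical
  obtain ⟨f, G⟩ := exists_gd hD hHL hB
  have F := G.fr
  have hle : ∀ i : Fin (c + 1), 2 * (i : ℕ) ≤ X.dim := fun i => by omega
  choose M x hx using fun i : Fin (c + 1) => exists_prim W hD (hle i)
  have hpr : ∀ (i : Fin (c + 1)) (t : Fin (M i)), Primitive W X D i (x i t : X.Cycles) :=
    fun i t => (x i t).2
  let y : (Σ i : Fin (c + 1), Fin (M i)) → {z : X.Cycles // X.IsCyc c z} := fun p =>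
    ⟨divPow ops D (c - p.1) (x p.1 p.2 : X.Cycles), by
      have := divPow_mem (ops := ops) hD (c - p.1) (hpr p.1 p.2).1
      rwa [show (p.1 : ℕ) + (c - p.1) = c by omega] at this⟩
  let w : (Σ i : Fin (c + 1), Fin (M i)) → {z : X.Cycles // X.IsCyc (X.dim - c) z} := fun p =>
    ⟨divPow ops D (X.dim - c - p.1) (x p.1 p.2 : X.Cycles), by
      have := divPow_mem (ops := ops) hD (X.dim - c - p.1) (hpr p.1 p.2).1
      rwa [show (p.1 : ℕ) + (X.dim - c - p.1) = X.dim - c by omega] at this⟩
  have hy : ∀ p, W.cl X (y p).1 =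
      ((LinearMap.mulLeft W.K (W.cl X D)) ^ (c - p.1)) (W.cl X (x p.1 p.2 : X.Cycles)) :=
    fun p => cl_divPow _ _ _
  have hw : ∀ p, W.cl X (w p).1 =
      ((LinearMap.mulLeft W.K (W.cl X D)) ^ (X.dim - c - p.1)) (W.cl X (x p.1 p.2 : X.Cycles)) :=
    fun p => cl_divPow _ _ _
  have hyw0 : ∀ p q, p ≠ q → interNumbers ops X c (y p) (w q) = 0 := by
    rintro ⟨i, t⟩ ⟨i', t'⟩ hne
    have h1 : ((interNumbers ops X c (y ⟨i, t⟩) (w ⟨i', t'⟩) : ℚ) : W.K) = 0 := by
      rw [inter_cast hc, hy, hw]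
      by_cases hii : i = i'
      · subst hii
        have htt : t ≠ t' := by rintro rfl; exact hne rfl
        have h2 : pairing ops X D i (x i t : X.Cycles) (x i t' : X.Cycles) = 0 := by
          have := (hx i).orth t t' htt
          rwa [BP_apply] at this
        have h3 := tr_same hD (hle i) (hpr i t) (hpr i t') (j := c - i) (j' := X.dim - c - i)
          (by omega)
        rw [h2, mul_zero, Rat.cast_zero] at h3
        exact h3
      · exact tr_cross hD (hle i) (hle i') (fun h => hii (Fin.ext h)) (hpr i t) (hpr i' t')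
          (by dsimp only; omega)
    exact_mod_cast h1
  have hyw1 : ∀ p, interNumbers ops X c (y p) (w p) ≠ 0 := by
    rintro ⟨i, t⟩ h0
    have h1 : ((interNumbers ops X c (y ⟨i, t⟩) (w ⟨i, t⟩) : ℚ) : W.K) =
        (((-1) ^ (i : ℕ) * pairing ops X D i (x i t : X.Cycles) (x i t : X.Cycles) : ℚ) : W.K) := by
      rw [inter_cast hc, hy, hw]
      exact tr_same hD (hle i) (hpr i t) (hpr i t) (by dsimp only; omega)
    rw [h0] at h1
    have h2 : (0 : ℚ) = (-1) ^ (i : ℕ) * pairing ops X D i (x i t : X.Cycles) (x i t : X.Cycles) :=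
      by exact_mod_cast h1
    rcases mul_eq_zero.1 h2.symm with h3 | h3
    · exact pow_ne_zero _ (by norm_num) h3
    · apply (hx i).ne t
      rw [BP_apply]
      exact h3
  have hli : LinearIndependent ℚ (fun p => interNumbers ops X c (y p)) := by
    rw [Fintype.linearIndependent_iff]
    intro g hg p
    have h1 := congrFun hg (w p)
    rw [Finset.sum_apply] at h1
    simp only [Pi.smul_apply, smul_eq_mul, Pi.zero_apply] at h1
    rw [Finset.sum_eq_single p] at h1
    · exact (mul_eq_zero.1 h1).resolve_right (hyw1 p)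
    · intro q _ hq
      rw [hyw0 q p hq, mul_zero]
    · intro h
      exact absurd (Finset.mem_univ _) h
  have hspan : Submodule.span ℚ (Set.range (interNumbers ops X c)) =
      Submodule.span ℚ (Set.range (fun p => interNumbers ops X c (y p))) := by
    apply le_antisymm
    · rw [Submodule.span_le]
      rintro _ ⟨z, rfl⟩
      obtain ⟨v, hv, hs⟩ := decomp_cyc F hc z.2
      have key : interNumbers ops X c z = ∑ p : (Σ i : Fin (c + 1), Fin (M i)),
          (pairing ops X D p.1 (v p.1) (x p.1 p.2 : X.Cycles) /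
            pairing ops X D p.1 (x p.1 p.2 : X.Cycles) (x p.1 p.2 : X.Cycles)) •
            interNumbers ops X c (y p) := by
        funext b
        obtain ⟨w', hw', hb⟩ := decomp_high F hc b.2
        have h1 : interNumbers ops X c z b =
            ∑ i ∈ range (c + 1), (-1) ^ i * pairing ops X D i (v i) (w' i) := by
          have h2 : ((interNumbers ops X c z b : ℚ) : W.K) =
              ((∑ i ∈ range (c + 1), (-1) ^ i * pairing ops X D i (v i) (w' i) : ℚ) : W.K) := by
            rw [inter_cast hc, hs, hb, Finset.sum_mul, map_sum, Rat.cast_sum]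
            apply Finset.sum_congr rfl
            intro i hi
            rw [Finset.mem_range] at hi
            exact tr_one hD hc (by omega) (hv i (by omega)) hw'
          exact_mod_cast h2
        have h3 : ∀ p : (Σ i : Fin (c + 1), Fin (M i)), interNumbers ops X c (y p) b =
            (-1) ^ (p.1 : ℕ) * pairing ops X D p.1 (x p.1 p.2 : X.Cycles) (w' p.1) := by
          intro p
          have h4 : ((interNumbers ops X c (y p) b : ℚ) : W.K) =
              (((-1) ^ (p.1 : ℕ) * pairing ops X D p.1 (x p.1 p.2 : X.Cycles) (w' p.1) : ℚ) :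
                W.K) := by
            rw [inter_cast hc, hy, hb]
            exact tr_one hD hc (by omega) (hpr p.1 p.2) hw'
          exact_mod_cast h4
        rw [h1, Finset.sum_apply, Fintype.sum_sigma, Finset.sum_range]
        apply Finset.sum_congr rfl
        intro i _
        have h5 := OM_expand (BP_symm hD (hle i)) (hx i) ⟨v i, hv i (by omega)⟩
          ⟨w' i, hw' i (by omega)⟩
        simp only [BP_apply] at h5
        rw [h5, Finset.mul_sum]
        apply Finset.sum_congr rfl
        intro t _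
        rw [Pi.smul_apply, smul_eq_mul, h3]
        ring
      rw [key]
      exact Submodule.sum_mem _ fun p _ => Submodule.smul_mem _ _
        (Submodule.subset_span ⟨p, rfl⟩)
    · apply Submodule.span_mono
      rintro _ ⟨p, rfl⟩
      exact ⟨y p, rfl⟩
  rw [numRank, hspan, finrank_span_eq_card hli, Fintype.card_sigma, Finset.sum_range]
  apply Finset.sum_congr rfl
  intro i _
  rw [Fintype.card_fin]
  exact (posSq_add_negSq hD (hle i) (hx i)).symm

end Pool.Agent.V5helper37.SL
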